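import Mathlib
import Pool.Agent.Helper22_LLG.Stmt

/-!
# LLG, modules MERGE and UNM
-/

set_option autoImplicit false

namespace Pool.Agent.LLG.H63

open SimpleGraph Pool.Agent.LAG

/-- MERGE. -/
theorem merge : MergeStmt := by
  classical
  intro X _ G1 G2 h
  let _ : Fintype G1.ConnectedComponent := Fintype.ofFinite _
  let _ : Fintype G2.ConnectedComponent := Fintype.ofFinite _
  set φ : G1.ConnectedComponent → G2.ConnectedComponent :=
    ConnectedComponent.map (Hom.ofLE h) with hφ
  have hmk : ∀ a, φ (G1.connectedComponentMk a) = G2.connectedComponentMk a := fun a => rfl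
  have h1 : cc G1 = ∑ D : G2.ConnectedComponent,
      (Finset.univ.filter fun C : G1.ConnectedComponent => φ C = D).card := by
    unfold cc
    rw [Nat.card_eq_fintype_card, ← Finset.card_univ]
    exact Finset.card_eq_sum_card_fiberwise (fun _ _ => Finset.mem_coe.2 (Finset.mem_univ _))
  have h2 : (unm G1 G2).ncard = ∑ D : G2.ConnectedComponent,
      ((Finset.univ.filter fun C : G1.ConnectedComponent => C ∈ unm G1 G2).filter
        fun C => φ C = D).card := by
    have e1 : (unm G1 G2).ncard =
        (Finset.univ.filter fun C : G1.ConnectedComponent => C ∈ unm G1 G2).card := by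
      rw [← Set.ncard_coe_finset]
      congr 1
      ext C
      simp
    rw [e1]
    exact Finset.card_eq_sum_card_fiberwise (f := φ) (t := Finset.univ)
      (fun _ _ => Finset.mem_coe.2 (Finset.mem_univ _))
  have h3 : 2 * cc G2 = ∑ _D : G2.ConnectedComponent, 2 := by
    unfold cc
    rw [Nat.card_eq_fintype_card, Finset.sum_const, Finset.card_univ, smul_eq_mul, mul_comm]
  rw [h1, h2, h3, ← Finset.sum_add_distrib]
  refine Finset.sum_le_sum fun D _ => ?_
  obtain ⟨a, rfl⟩ := D.exists_rep
  set F := Finset.univ.filter fun C : G1.ConnectedComponent =>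
    φ C = G2.connectedComponentMk a with hF
  have hC : G1.connectedComponentMk a ∈ F := by
    rw [hF, Finset.mem_filter]; exact ⟨Finset.mem_univ _, hmk a⟩
  by_cases hc : 2 ≤ F.card
  · exact hc.trans (Nat.le_add_right _ _)
  · have hone : F.card = 1 := by
      have := Finset.card_pos.2 ⟨_, hC⟩
      omega
    obtain ⟨C0, hC0⟩ := Finset.card_eq_one.1 hone
    have hmem : ∀ C ∈ F, C = G1.connectedComponentMk a := by
      intro C hCF
      rw [hC0, Finset.mem_singleton] at hCF hC
      rw [hCF, hC]
    have hin : G1.connectedComponentMk a ∈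
        (Finset.univ.filter fun C : G1.ConnectedComponent => C ∈ unm G1 G2).filter
          fun C => φ C = G2.connectedComponentMk a := by
      rw [Finset.mem_filter, Finset.mem_filter]
      refine ⟨⟨Finset.mem_univ _, ?_⟩, hmk a⟩
      intro x y hx hxy
      apply hmem
      rw [hF, Finset.mem_filter]
      refine ⟨Finset.mem_univ _, ?_⟩
      rw [hmk]
      have e1 : G2.connectedComponentMk y = G2.connectedComponentMk x :=
        ConnectedComponent.sound hxy.symm.reachable
      rw [e1, ← hmk x, hx, hmk]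
    have := Finset.card_pos.2 ⟨_, hin⟩
    have e : (Finset.univ.filter fun C : G1.ConnectedComponent =>
      φ C = Quot.mk G2.Reachable a).card = 1 := hone
    have e' : 1 ≤ ((Finset.univ.filter fun C : G1.ConnectedComponent => C ∈ unm G1 G2).filter
        fun C => φ C = Quot.mk G2.Reachable a).card := this
    omega

/-- The probability that all edges of a set are closed. -/
theorem card_closed {α : Type} [Fintype α] [DecidableEq α] (k : ℕ) (S : Finset α) :
    (Finset.univ.filter fun ω : α → Fin k => ∀ e ∈ S, 3 ≤ (ω e).val).card =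
      (k - 3) ^ S.card * k ^ (Fintype.card α - S.card) := by
  have h1 : (Finset.univ.filter fun ω : α → Fin k => ∀ e ∈ S, 3 ≤ (ω e).val) =
      Fintype.piFinset fun e => if e ∈ S then Finset.univ.filter fun x : Fin k => 3 ≤ x.val
        else Finset.univ := by
    ext ω
    rw [Finset.mem_filter, Fintype.mem_piFinset]
    constructor
    · intro h e
      by_cases he : e ∈ S
      · rw [if_pos he, Finset.mem_filter]; exact ⟨Finset.mem_univ _, h.2 e he⟩
      · rw [if_neg he]; exact Finset.mem_univ _
    · intro h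
      refine ⟨Finset.mem_univ _, fun e he => ?_⟩
      have := h e
      rw [if_pos he, Finset.mem_filter] at this
      exact this.2
  have h2 : (Finset.univ.filter fun x : Fin k => 3 ≤ x.val).card = k - 3 := by
    have h3 : (Finset.univ.filter fun x : Fin k => x.val < 3).card = min k 3 := by
      rw [← Fintype.card_subtype]
      rcases le_total k 3 with hk | hk
      · rw [min_eq_left hk]
        have : Fintype.card {x : Fin k // x.val < 3} = Fintype.card (Fin k) :=
          Fintype.card_congr (Equiv.subtypeUnivEquiv fun x => lt_of_lt_of_le x.2 hk)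
        rw [this, Fintype.card_fin]
      · rw [min_eq_right hk]
        have : Fintype.card {x : Fin k // x.val < 3} = Fintype.card (Fin 3) :=
          Fintype.card_congr
            ⟨fun x => ⟨x.1.1, x.2⟩, fun x => ⟨⟨x.1, lt_of_lt_of_le x.2 hk⟩, x.2⟩,
              fun x => rfl, fun x => rfl⟩
        rw [this, Fintype.card_fin]
    have h4 := Finset.card_filter_add_card_filter_not (s := (Finset.univ : Finset (Fin k)))
      (fun x : Fin k => x.val < 3)
    rw [h3, Finset.card_univ, Fintype.card_fin] at h4
    have h5 : (Finset.univ.filter fun x : Fin k => ¬ x.val < 3) =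
        Finset.univ.filter fun x : Fin k => 3 ≤ x.val := by
      ext x; simp
    rw [h5] at h4
    rcases le_total k 3 with hk | hk
    · rw [min_eq_left hk] at h4; omega
    · rw [min_eq_right hk] at h4; omega
  rw [h1, Fintype.card_piFinset]
  have h3 : ∀ e : α, (if e ∈ S then Finset.univ.filter fun x : Fin k => 3 ≤ x.val
      else Finset.univ).card = if e ∈ S then k - 3 else k := by
    intro e
    by_cases he : e ∈ S
    · rw [if_pos he, if_pos he, h2]
    · rw [if_neg he, if_neg he, Finset.card_univ, Fintype.card_fin]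
  rw [Finset.prod_congr rfl fun e _ => h3 e, Finset.prod_ite, Finset.prod_const,
    Finset.prod_const]
  congr 2
  · congr 1
    ext e; simp
  · have := Finset.card_filter_add_card_filter_not (s := (Finset.univ : Finset α))
      (fun e : α => e ∈ S)
    have h4 : (Finset.univ.filter fun e : α => e ∈ S) = S := by ext e; simp
    rw [h4, Finset.card_univ] at this
    omega

/-- The same as a fraction. -/
theorem frac_closed {α : Type} [Fintype α] [DecidableEq α] (k : ℕ) (hk : 16 ≤ k) (S : Finset α)
    (hS : k ≤ 2 * S.card) :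
    ((Finset.univ.filter fun ω : α → Fin k => ∀ e ∈ S, 3 ≤ (ω e).val).card : ℝ) ≤
      1 / 4 * (Fintype.card (α → Fin k) : ℝ) := by
  have hSa : S.card ≤ Fintype.card α := Finset.card_le_univ S
  have hk0 : (0 : ℝ) < k := by
    have : 0 < k := by omega
    exact_mod_cast this
  have hk16 : (16 : ℝ) ≤ k := by exact_mod_cast hk
  rw [card_closed, Fintype.card_fun, Fintype.card_fin]
  push_cast
  have e1 : (k : ℝ) ^ Fintype.card α = (k : ℝ) ^ S.card * (k : ℝ) ^ (Fintype.card α - S.card) := by
    rw [← pow_add]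
    congr 1
    omega
  rw [e1, ← mul_assoc]
  apply mul_le_mul_of_nonneg_right _ (by positivity)
  have e2 : ((k - 3 : ℕ) : ℝ) = k * (1 - 3 / k) := by
    rw [Nat.cast_sub (by omega)]
    field_simp
    push_cast
    ring
  rw [e2, mul_pow, mul_comm (1 / 4 : ℝ)]
  apply mul_le_mul_of_nonneg_left _ (by positivity)
  have e3 : (1 - 3 / (k : ℝ)) ≤ Real.exp (-(3 / k)) := by
    have := Real.add_one_le_exp (-(3 / (k : ℝ)))
    linarith
  have e4 : 0 ≤ 1 - 3 / (k : ℝ) := by
    rw [sub_nonneg, div_le_one hk0]
    linarith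
  refine (pow_le_pow_left₀ e4 e3 _).trans ?_
  rw [← Real.exp_nat_mul]
  have e5 : (S.card : ℝ) * -(3 / k) ≤ -(3 / 2) := by
    have : (k : ℝ) ≤ 2 * S.card := by exact_mod_cast hS
    have e6 : (3 : ℝ) / 2 ≤ S.card * (3 / k) := by
      rw [mul_div_assoc', le_div_iff₀ hk0]
      linarith
    linarith
  refine (Real.exp_le_exp.2 e5).trans ?_
  rw [Real.exp_neg, one_div]
  apply inv_anti₀ (by norm_num)
  have e7 : (4 : ℝ) ^ 2 ≤ Real.exp (3 / 2) ^ 2 := by
    rw [← Real.exp_nat_mul]
    have : ((2 : ℕ) : ℝ) * (3 / 2) = ((3 : ℕ) : ℝ) * 1 := by norm_num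
    rw [this, Real.exp_nat_mul]
    have h27 := Real.exp_one_gt_d9
    have : (2.7 : ℝ) ^ 3 ≤ Real.exp 1 ^ 3 := pow_le_pow_left₀ (by norm_num) (by linarith) 3
    calc (4 : ℝ) ^ 2 ≤ (2.7 : ℝ) ^ 3 := by norm_num
      _ ≤ _ := this
  exact le_of_sq_le_sq e7 (Real.exp_pos _).le

/-- UNM. -/
theorem unm_av : UnmStmt := by
  classical
  intro X _ _ Γ O k m hk hm hdeg hsp hO
  let _ : Fintype O.ConnectedComponent := Fintype.ofFinite _
  have hk0 : (0 : ℝ) < k := by
    have : 0 < k := by omega
    exact_mod_cast this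
  have hm0 : (0 : ℝ) < m := by exact_mod_cast hm
  set Ω := Sym2 X → Fin k
  have : Nonempty (Fin k) := ⟨⟨0, by omega⟩⟩
  have hΩ : (0 : ℝ) < (Fintype.card Ω : ℝ) := by
    exact_mod_cast Fintype.card_pos
  -- the vertices of a component
  set vs : O.ConnectedComponent → Finset X := fun C =>
    Finset.univ.filter fun x => O.connectedComponentMk x = C with hvs
  set ms : O.ConnectedComponent → ℕ := fun C => ∑ x ∈ vs C, (k - (Γ.neighborSet x).ncard) with hms
  have hpos : ∀ C, 1 ≤ (vs C).card := by
    intro C
    obtain ⟨a, rfl⟩ := C.exists_rep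
    exact Finset.card_pos.2 ⟨a, by rw [hvs, Finset.mem_filter]; exact ⟨Finset.mem_univ _, rfl⟩⟩
  have hsumv : ∑ C, (vs C).card = Fintype.card X := by
    rw [← Finset.card_univ]
    exact (Finset.card_eq_sum_card_fiberwise (f := O.connectedComponentMk) (t := Finset.univ)
      (fun _ _ => Finset.mem_coe.2 (Finset.mem_univ _))).symm
  have hsumm : ∑ C, ms C = mis Γ k := by
    unfold mis
    exact Finset.sum_fiberwise Finset.univ O.connectedComponentMk
      (fun x => k - (Γ.neighborSet x).ncard)
  -- the probability for one component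
  have key : ∀ C : O.ConnectedComponent,
      ((Finset.univ.filter fun ω : Ω => C ∈ unm O (O ⊔ opn Γ ω 3)).card : ℝ) ≤
        (1 / 4 + ((vs C).card / m + 4 * (ms C : ℝ) / k)) * (Fintype.card Ω : ℝ) := by
    intro C
    have htriv : ((Finset.univ.filter fun ω : Ω => C ∈ unm O (O ⊔ opn Γ ω 3)).card : ℝ) ≤
        1 * (Fintype.card Ω : ℝ) := by
      rw [one_mul]
      exact_mod_cast Finset.card_le_univ _
    by_cases h1 : m ≤ (vs C).card
    · refine htriv.trans (mul_le_mul_of_nonneg_right ?_ hΩ.le)
      have : (1 : ℝ) ≤ (vs C).card / m := by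
        rw [le_div_iff₀ hm0, one_mul]; exact_mod_cast h1
      have h2 : (0 : ℝ) ≤ 4 * (ms C : ℝ) / k := by positivity
      linarith
    by_cases h2 : k * (vs C).card ≤ 4 * ms C
    · refine htriv.trans (mul_le_mul_of_nonneg_right ?_ hΩ.le)
      have h3 : (1 : ℝ) ≤ 4 * (ms C : ℝ) / k := by
        rw [le_div_iff₀ hk0, one_mul]
        have : k ≤ 4 * ms C := (Nat.le_mul_of_pos_right k (hpos C)).trans h2
        exact_mod_cast this
      have h4 : (0 : ℝ) ≤ (vs C).card / m := by positivity
      linarith
    push Not at h1 h2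
    -- the boundary
    set B : Finset (X × X) := Finset.univ.filter fun e =>
      e.1 ∈ vs C ∧ e.2 ∉ vs C ∧ Γ.Adj e.1 e.2 with hB
    set I : Finset (X × X) := Finset.univ.filter fun e =>
      e.1 ∈ vs C ∧ e.2 ∈ vs C ∧ Γ.Adj e.1 e.2 with hI
    have hIc : 4 * I.card ≤ k * (vs C).card := by
      have h3 := hsp (vs C : Set X) (by rw [Set.ncard_coe_finset]; exact h1)
      rw [Set.ncard_coe_finset] at h3
      have : ins Γ (vs C : Set X) = I.card := by
        unfold ins
        rw [← Set.ncard_coe_finset]
        congr 1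
        ext e
        simp [hI]
      rwa [this] at h3
    have hsum : ∑ x ∈ vs C, (Γ.neighborSet x).ncard = I.card + B.card := by
      have h3 : ∀ x ∈ vs C, (Γ.neighborSet x).ncard =
          ((I ∪ B).filter fun e => e.1 = x).card := by
        intro x hx
        rw [← Set.ncard_coe_finset]
        have : (((I ∪ B).filter fun e => e.1 = x : Finset (X × X)) : Set (X × X)) =
            (fun y => (x, y)) '' (Γ.neighborSet x) := by
          ext ⟨a, b⟩
          simp only [Finset.coe_filter, Finset.mem_union, Set.mem_ofPred_eq, Set.mem_image,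
            mem_neighborSet, Prod.mk.injEq, hI, hB, Finset.mem_filter, Finset.mem_univ, true_and]
          constructor
          · rintro ⟨h | h, rfl⟩
            · exact ⟨b, h.2.2, rfl, rfl⟩
            · exact ⟨b, h.2.2, rfl, rfl⟩
          · rintro ⟨y, h, rfl, rfl⟩
            refine ⟨?_, rfl⟩
            by_cases hy : y ∈ vs C
            · exact Or.inl ⟨hx, hy, h⟩
            · exact Or.inr ⟨hx, hy, h⟩
        rw [this, Set.ncard_image_of_injective _ (fun a b h => (Prod.mk.inj h).2)]
      rw [Finset.sum_congr rfl h3]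
      have h4 : I.card + B.card = (I ∪ B).card := by
        rw [Finset.card_union_of_disjoint]
        rw [Finset.disjoint_left]
        intro e he he'
        rw [hI, Finset.mem_filter] at he
        rw [hB, Finset.mem_filter] at he'
        exact he'.2.2.1 he.2.2.1
      rw [h4]
      refine (Finset.card_eq_sum_card_fiberwise (f := Prod.fst) (t := vs C) ?_).symm
      intro e he
      rcases Finset.mem_union.1 (Finset.mem_coe.1 he) with he | he
      · rw [hI, Finset.mem_filter] at he; exact Finset.mem_coe.2 he.2.1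
      · rw [hB, Finset.mem_filter] at he; exact Finset.mem_coe.2 he.2.1
    have hms2 : ms C + ∑ x ∈ vs C, (Γ.neighborSet x).ncard = k * (vs C).card := by
      rw [hms]
      simp only
      rw [← Finset.sum_add_distrib, Finset.sum_congr rfl
        (fun x _ => Nat.sub_add_cancel (hdeg x)), Finset.sum_const, smul_eq_mul, mul_comm]
    have hBc : k ≤ 2 * B.card := by
      have h5 : k ≤ k * (vs C).card := Nat.le_mul_of_pos_right k (hpos C)
      rw [hsum] at hms2
      omega
    -- the edges
    set S : Finset (Sym2 X) := B.image fun e => s(e.1, e.2) with hS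
    have hSc : S.card = B.card := by
      rw [hS]
      apply Finset.card_image_of_injOn
      intro e he f hf hef
      rw [hB, Finset.mem_coe, Finset.mem_filter] at he hf
      rcases Sym2.eq_iff.1 hef with ⟨h3, h4⟩ | ⟨h3, h4⟩
      · exact Prod.ext h3 h4
      · exact absurd (h3 ▸ he.2.1) hf.2.2.1
    have hsub : (Finset.univ.filter fun ω : Ω => C ∈ unm O (O ⊔ opn Γ ω 3)) ⊆
        Finset.univ.filter fun ω : Ω => ∀ e ∈ S, 3 ≤ (ω e).val := by
      intro ω hω
      rw [Finset.mem_filter] at hω ⊢
      refine ⟨Finset.mem_univ _, fun e he => ?_⟩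
      rw [hS, Finset.mem_image] at he
      obtain ⟨⟨x, y⟩, hxy, rfl⟩ := he
      rw [hB, Finset.mem_filter] at hxy
      by_contra hlt
      push Not at hlt
      have h3 : (opn Γ ω 3).Adj x y := ⟨hxy.2.2.2, hlt⟩
      have h4 := hω.2 x y (by
        have := hxy.2.1
        rw [hvs, Finset.mem_filter] at this
        exact this.2) (Or.inr h3)
      exact hxy.2.2.1 (by rw [hvs, Finset.mem_filter]; exact ⟨Finset.mem_univ _, h4⟩)
    have h5 : ((Finset.univ.filter fun ω : Ω => C ∈ unm O (O ⊔ opn Γ ω 3)).card : ℝ) ≤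
        1 / 4 * (Fintype.card Ω : ℝ) :=
      (by exact_mod_cast Finset.card_le_card hsub : ((Finset.univ.filter fun ω : Ω =>
        C ∈ unm O (O ⊔ opn Γ ω 3)).card : ℝ) ≤ ((Finset.univ.filter fun ω : Ω =>
          ∀ e ∈ S, 3 ≤ (ω e).val).card : ℝ)).trans (frac_closed k hk S (by rw [hSc]; exact hBc))
    refine h5.trans (mul_le_mul_of_nonneg_right ?_ hΩ.le)
    have h6 : (0 : ℝ) ≤ (vs C).card / m := by positivity
    have h7 : (0 : ℝ) ≤ 4 * (ms C : ℝ) / k := by positivity
    linarith
  -- summation
  unfold av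
  rw [div_le_iff₀ hΩ]
  have h1 : ∀ ω : Ω, ((unm O (O ⊔ opn Γ ω 3)).ncard : ℝ) =
      ∑ C : O.ConnectedComponent, if C ∈ unm O (O ⊔ opn Γ ω 3) then (1 : ℝ) else 0 := by
    intro ω
    rw [Finset.sum_ite, Finset.sum_const_zero, add_zero, Finset.sum_const, nsmul_eq_mul, mul_one,
      ← Set.ncard_coe_finset]
    congr 2
    ext C
    simp
  rw [Finset.sum_congr rfl fun ω _ => h1 ω, Finset.sum_comm]
  have h2 : ∀ C : O.ConnectedComponent,
      (∑ ω : Ω, if C ∈ unm O (O ⊔ opn Γ ω 3) then (1 : ℝ) else 0) =
        ((Finset.univ.filter fun ω : Ω => C ∈ unm O (O ⊔ opn Γ ω 3)).card : ℝ) := by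
    intro C
    rw [Finset.sum_ite, Finset.sum_const_zero, add_zero, Finset.sum_const, nsmul_eq_mul, mul_one]
  rw [Finset.sum_congr rfl fun C _ => h2 C]
  refine (Finset.sum_le_sum fun C _ => key C).trans ?_
  rw [← Finset.sum_mul]
  apply mul_le_mul_of_nonneg_right _ hΩ.le
  rw [Finset.sum_add_distrib, Finset.sum_add_distrib, Finset.sum_const, Finset.card_univ,
    nsmul_eq_mul, ← Finset.sum_div, ← Finset.sum_div, ← Finset.mul_sum, ← Nat.cast_sum,
    ← Nat.cast_sum, hsumv, hsumm]
  unfold cc
  rw [Nat.card_eq_fintype_card]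
  linarith

end Pool.Agent.LLG.H63
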